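import Mathlib
import Pool.Agent.H748R3.Undet

set_option autoImplicit false

open Set Topology Cardinal Pool.Agent.H748R3

namespace Pool.Agent.Results.MP_f38362_gt.HausdorffUndetermined

/-- A choice of `ℵ₁` reals which are pairwise inequivalent modulo `ℚ`. -/
theorem exists_c : ∃ c : (aleph 1).ord.ToType → ℝ, Function.Injective (phi c) := by
  let S : AddSubgroup ℝ := (Rat.castHom ℝ).toAddMonoidHom.range
  have h1 : #ℝ = #(ℝ ⧸ S) * #S := by
    have := Cardinal.mk_congr (AddSubgroup.addGroupEquivQuotientProdAddSubgroup (s := S))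
    rw [this, Cardinal.mk_prod, Cardinal.lift_id, Cardinal.lift_id]
  have h2 : #S ≤ ℵ₀ := by
    rw [Cardinal.mk_le_aleph0_iff]
    have : (S : Set ℝ).Countable := by
      have : (S : Set ℝ) = range (fun q : ℚ => (q : ℝ)) := by
        ext x
        simp [S]
      rw [this]
      exact countable_range _
    exact this.to_subtype
  have h3 : 𝔠 ≤ #(ℝ ⧸ S) := by
    by_contra hlt
    push Not at hlt
    have := Cardinal.mul_lt_of_lt Cardinal.aleph0_le_continuum hlt
      (lt_of_le_of_lt h2 Cardinal.aleph0_lt_continuum)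
    rw [← h1, Cardinal.mk_real] at this
    exact lt_irrefl _ this
  have h4 : #((aleph 1).ord.ToType) ≤ #(ℝ ⧸ S) := by
    rw [Cardinal.mk_ord_toType]
    exact Cardinal.aleph_one_le_continuum.trans h3
  obtain ⟨g⟩ := h4
  refine ⟨fun α => Quotient.out (g α), ?_⟩
  intro x y hxy
  simp only [phi] at hxy
  have h5 : g x.idx = g y.idx := by
    rw [← Quotient.out_eq (g x.idx), ← Quotient.out_eq (g y.idx)]
    apply QuotientAddGroup.eq.mpr
    refine ⟨x.q - y.q, ?_⟩
    simp only [map_sub]
    change ((x.q : ℝ) - (y.q : ℝ)) = -(Quotient.out (g x.idx)) + Quotient.out (g y.idx)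
    linarith
  have h6 : x.idx = y.idx := g.injective h5
  refine Pt.ext' h6 ?_
  rw [h6] at hxy
  exact_mod_cast add_left_cancel hxy

/-- In ZFC there is a Hausdorff space (even one with a continuous injection into the real line), of
size `ℵ₁`, on which the open-point game of Berner and Juhász is undetermined; equivalently the game
`G₁(D, D)` for the family `D` of dense subsets is undetermined. -/
theorem result : ∃ (X : Type) (_ : TopologicalSpace X), T2Space X ∧
    (∃ f : X → ℝ, Continuous f ∧ Function.Injective f) ∧ #X = aleph 1 ∧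
    ¬ OneWinsOpenPoint X ∧ ¬ TwoWinsOpenPoint X ∧ ¬ OneWinsDense X ∧ ¬ TwoWinsDense X := by
  obtain ⟨c, hc⟩ := exists_c
  have hW := omegaOneLike_toType
  obtain ⟨E, hE1, hE2⟩ := hW.bistationary
  obtain ⟨C, hC1, hC2, hC3⟩ := hW.ladder
  let τ := topo c E C
  have hone : ¬ @OneWinsOpenPoint _ τ := not_one c hW hC1 hC2 hC3 hE1
  have htwo : ¬ @TwoWinsOpenPoint _ τ := not_two c hW hC1 hC2 hE2
  have hne : Nonempty (Pt (aleph 1).ord.ToType) := by
    by_contra hn
    rw [not_nonempty_iff] at hn
    apply hW.unc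
    have : IsEmpty (aleph 1).ord.ToType := ⟨fun a => hn.false ⟨a, 0⟩⟩
    infer_instance
  have hcard : #(Pt (aleph 1).ord.ToType) = aleph 1 := by
    have e : Pt (aleph 1).ord.ToType ≃ (aleph 1).ord.ToType × ℚ :=
      ⟨fun x => (x.idx, x.q), fun p => ⟨p.1, p.2⟩, fun _ => rfl, fun _ => rfl⟩
    rw [Cardinal.mk_congr e, Cardinal.mk_prod, Cardinal.lift_id, Cardinal.lift_id,
      Cardinal.mk_ord_toType, Cardinal.mk_denumerable]
    exact Cardinal.mul_aleph0_eq (Cardinal.aleph0_le_aleph 1)
  refine ⟨Pt (aleph 1).ord.ToType, τ, ?_, ⟨phi c, continuous_phi c E C, hc⟩, hcard, hone, htwo,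
    fun h => htwo (@two_of_oneDense _ τ hne h), fun h => hone (@one_of_twoDense _ τ hne h)⟩
  exact @T2Space.of_injective_continuous _ _ τ _ _ (phi c) hc (continuous_phi c E C)

end Pool.Agent.Results.MP_f38362_gt.HausdorffUndetermined
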